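import Pool.Agent.Helper29.PA.FrAct

/-!
# The star lemma: stars of groups mapping to a group `Q` of the class injectively on the vertex
groups embed in `FreeGroup Y ⋊ Q`
-/

set_option autoImplicit false

namespace Pool.Agent.Helper29.PA

open Pool.Agent.Helper29.BA

/-! ### Exchanging two disjoint copies of `U` in `S` -/

section swap

variable {U S : Type} (α β : U → S)

open Classical in
/-- The map which exchanges `α u` and `β u`. -/
noncomputable def sw (s : S) : S :=
  if h : ∃ u, α u = s then β h.choose else if h : ∃ u, β u = s then α h.choose else s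

variable {α β}

theorem sw_left (hα : Function.Injective α) (u : U) : sw α β (α u) = β u := by
  have h : ∃ v, α v = α u := ⟨u, rfl⟩
  rw [sw, dif_pos h, hα h.choose_spec]

theorem sw_right (hβ : Function.Injective β) (hd : ∀ u v, α u ≠ β v) (u : U) :
    sw α β (β u) = α u := by
  have h : ¬ ∃ v, α v = β u := fun ⟨v, hv⟩ => hd v u hv
  have h' : ∃ v, β v = β u := ⟨u, rfl⟩
  rw [sw, dif_neg h, dif_pos h', hβ h'.choose_spec]

theorem sw_of_ne {s : S} (h : ∀ u, α u ≠ s) (h' : ∀ u, β u ≠ s) : sw α β s = s := by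
  rw [sw, dif_neg (fun ⟨v, hv⟩ => h v hv), dif_neg (fun ⟨v, hv⟩ => h' v hv)]

theorem sw_cases (s : S) : (∃ u, α u = s) ∨ (∃ u, β u = s) ∨ ((∀ u, α u ≠ s) ∧ ∀ u, β u ≠ s) := by
  by_cases h : ∃ u, α u = s
  · exact Or.inl h
  · by_cases h' : ∃ u, β u = s
    · exact Or.inr (Or.inl h')
    · exact Or.inr (Or.inr ⟨fun u hu => h ⟨u, hu⟩, fun u hu => h' ⟨u, hu⟩⟩)

theorem sw_sw (hα : Function.Injective α) (hβ : Function.Injective β)
    (hd : ∀ u v, α u ≠ β v) : Function.Involutive (sw α β) := by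
  intro s
  rcases sw_cases (α := α) (β := β) s with ⟨u, rfl⟩ | ⟨u, rfl⟩ | ⟨h, h'⟩
  · rw [sw_left hα, sw_right hβ hd]
  · rw [sw_right hβ hd, sw_left hα]
  · rw [sw_of_ne h h', sw_of_ne h h']

theorem sw_comm (hα : Function.Injective α) (hβ : Function.Injective β)
    (hd : ∀ u v, α u ≠ β v) (g : Equiv.Perm S) (τ : Equiv.Perm U)
    (h1 : ∀ u, g (α u) = α (τ u)) (h2 : ∀ u, g (β u) = β (τ u)) (s : S) :
    sw α β (g s) = g (sw α β s) := by
  rcases sw_cases (α := α) (β := β) s with ⟨u, rfl⟩ | ⟨u, rfl⟩ | ⟨h, h'⟩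
  · rw [h1, sw_left hα, sw_left hα, h2]
  · rw [h2, sw_right hβ hd, sw_right hβ hd, h1]
  · rw [sw_of_ne h h', sw_of_ne]
    · intro u hu
      refine h (τ.symm u) (g.injective ?_)
      rw [h1, Equiv.apply_symm_apply, hu]
    · intro u hu
      refine h' (τ.symm u) (g.injective ?_)
      rw [h2, Equiv.apply_symm_apply, hu]

/-- The exchange as a permutation. -/
noncomputable def swPerm (hα : Function.Injective α) (hβ : Function.Injective β)
    (hd : ∀ u v, α u ≠ β v) : Equiv.Perm S :=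
  (sw_sw hα hβ hd).toPerm

@[simp] theorem swPerm_apply (hα : Function.Injective α) (hβ : Function.Injective β)
    (hd : ∀ u v, α u ≠ β v) (s : S) : swPerm hα hβ hd s = sw α β s := rfl

end swap

/-! ### Balanced products -/

section balanced

variable {A Q U : Type} [Group A] [Group Q] [Group U] (a : A →* Q) (b : A →* U)

/-- `(q a, u) ~ (q, a u)`. -/
def balSetoid : Setoid (Q × U) where
  r x y := ∃ t : A, y.1 = x.1 * a t ∧ x.2 = b t * y.2
  iseqv :=
    { refl := fun x => ⟨1, by simp⟩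
      symm := by
        rintro x y ⟨t, h1, h2⟩
        exact ⟨t⁻¹, by simp [h1], by simp [h2]⟩
      trans := by
        rintro x y z ⟨t, h1, h2⟩ ⟨t', h3, h4⟩
        exact ⟨t * t', by simp [h1, h3, mul_assoc], by simp [h2, h4, mul_assoc]⟩ }

/-- The balanced product of `Q` and `U` over `A`. -/
def Bal : Type := Quotient (balSetoid a b)

namespace Bal

variable {a b}

/-- The class of a pair. -/
def mk (q : Q) (u : U) : Bal a b := Quotient.mk (balSetoid a b) (q, u)

theorem ind {P : Bal a b → Prop} (h : ∀ q u, P (mk q u)) (x : Bal a b) : P x :=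
  Quotient.ind (fun p => h p.1 p.2) x

theorem mk_mul (q : Q) (t : A) (u : U) : (mk (q * a t) u : Bal a b) = mk q (b t * u) :=
  (Quotient.sound (s := balSetoid a b) (a := (q, b t * u)) (b := (q * a t, u)) ⟨t, rfl, rfl⟩).symm

theorem mk_one_inj (ha : Function.Injective a) {u v : U} (h : (mk 1 u : Bal a b) = mk 1 v) :
    u = v := by
  obtain ⟨t, h1, h2⟩ := Quotient.exact (s := balSetoid a b) h
  have ht : t = 1 := by
    refine ha ?_
    rw [map_one]
    simpa using h1.symm
  subst ht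
  simpa using h2

instance : MulAction Q (Bal a b) where
  smul q := Quotient.map' (s₁ := balSetoid a b) (s₂ := balSetoid a b) (fun p => (q * p.1, p.2)) (by
    rintro x y ⟨t, h1, h2⟩
    exact ⟨t, by simp [h1, mul_assoc], h2⟩)
  one_smul := by
    refine ind fun q u => ?_
    change mk (1 * q) u = mk q u
    rw [one_mul]
  mul_smul := by
    intro p p'
    refine ind fun q u => ?_
    change mk (p * p' * q) u = mk (p * (p' * q)) u
    rw [mul_assoc]

theorem smul_mk (p q : Q) (u : U) : (p • mk q u : Bal a b) = mk (p * q) u := rfl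

end Bal

end balanced

/-! ### The embedding -/

namespace Star

variable {T : Type} [Group T] (D : Star T) {Q : Type} [Group Q]
  (f0 : D.ctr →* Q) (f : ∀ i, D.leaf i →* Q)

/-- The images of the edge groups in `Q`. -/
def img (i : D.ι) : Subgroup Q := (f0.comp (Subgroup.inclusion (D.le_ctr i))).range

/-- The `Q`-set of the basis elements. -/
abbrev Base : Type := Σ i : D.ι, Q ⧸ D.img f0 i

/-- The set on which everything acts. -/
abbrev Sp : Type := Bal f0 D.c ⊕ Σ i : D.ι, Bal (f i) (D.j i)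

/-- The action of `Q`. -/
def actQ : Q →* Equiv.Perm (D.Sp f0 f) := MulAction.toPermHom Q (D.Sp f0 f)

theorem actQ_inl (q : Q) (x : Bal f0 D.c) : D.actQ f0 f q (Sum.inl x) = Sum.inl (q • x) := rfl

theorem actQ_inr (q : Q) (i : D.ι) (x : Bal (f i) (D.j i)) :
    D.actQ f0 f q (Sum.inr ⟨i, x⟩) = Sum.inr ⟨i, q • x⟩ := rfl

/-- The copy of the group over the centre. -/
def cp (u : D.Grp) : D.Sp f0 f := Sum.inl (Bal.mk 1 u)

/-- The copy of the group over a leaf. -/
def lp (i : D.ι) (u : D.Grp) : D.Sp f0 f := Sum.inr ⟨i, Bal.mk 1 u⟩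

variable {f0 f}

theorem cp_inj (h0 : Function.Injective f0) : Function.Injective (D.cp f0 f) := by
  intro u v h
  exact Bal.mk_one_inj h0 (Sum.inl_injective h)

theorem lp_inj (h : ∀ i, Function.Injective (f i)) (i : D.ι) :
    Function.Injective (D.lp f0 f i) := by
  intro u v huv
  have := Sum.inr_injective huv
  exact Bal.mk_one_inj (h i) (eq_of_heq (Sigma.mk.inj this).2)

theorem cp_ne_lp (i : D.ι) (u v : D.Grp) : D.cp f0 f u ≠ D.lp f0 f i v := by
  intro h
  cases h

variable (h0 : Function.Injective f0) (h : ∀ i, Function.Injective (f i))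
  (hcomp : ∀ i (l : D.edge i), f0 (Subgroup.inclusion (D.le_ctr i) l) =
    f i (Subgroup.inclusion (D.le_leaf i) l))

/-- The exchange. -/
noncomputable def ex (i : D.ι) : Equiv.Perm (D.Sp f0 f) :=
  swPerm (D.cp_inj (f := f) h0) (D.lp_inj h i) (D.cp_ne_lp i)

theorem ex_cp (i : D.ι) (u : D.Grp) : D.ex h0 h i (D.cp f0 f u) = D.lp f0 f i u :=
  sw_left (D.cp_inj (f := f) h0) u

theorem ex_lp (i : D.ι) (u : D.Grp) : D.ex h0 h i (D.lp f0 f i u) = D.cp f0 f u :=
  sw_right (D.lp_inj h i) (D.cp_ne_lp i) u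

include hcomp in
theorem ex_comm (i : D.ι) (q : Q) (hq : q ∈ D.img f0 i) :
    D.actQ f0 f q * D.ex h0 h i = D.ex h0 h i * D.actQ f0 f q := by
  obtain ⟨l, rfl⟩ := hq
  ext1 s
  symm
  refine sw_comm (D.cp_inj (f := f) h0) (D.lp_inj h i) (D.cp_ne_lp i)
    (D.actQ f0 f (f0 (Subgroup.inclusion (D.le_ctr i) l)))
    (Equiv.mulLeft (D.c (Subgroup.inclusion (D.le_ctr i) l))) ?_ ?_ s
  · intro u
    rw [cp, actQ_inl, Bal.smul_mk, mul_one]
    have := Bal.mk_mul (a := f0) (b := D.c) 1 (Subgroup.inclusion (D.le_ctr i) l) u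
    rw [one_mul] at this
    rw [this]
    rfl
  · intro u
    rw [lp, actQ_inr, Bal.smul_mk, mul_one, hcomp]
    have := Bal.mk_mul (a := f i) (b := D.j i) 1 (Subgroup.inclusion (D.le_leaf i) l) u
    rw [one_mul] at this
    rw [this, D.glue]
    rfl

theorem conj_eq_of_comm {H : Type} [Group H] {a b e : H} (he : a⁻¹ * b * e = e * (a⁻¹ * b)) :
    a * e * a⁻¹ = b * e * b⁻¹ := by
  have h1 : b * e * b⁻¹ = a * (a⁻¹ * b * e) * b⁻¹ := by group
  rw [h1, he]
  group

/-- The permutations attached to the basis elements. -/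
noncomputable def exB (y : D.Base f0) : Equiv.Perm (D.Sp f0 f) :=
  Quotient.liftOn y.2 (fun q => D.actQ f0 f q * D.ex h0 h y.1 * (D.actQ f0 f q)⁻¹) (by
    intro q q' hqq
    have hq : q⁻¹ * q' ∈ D.img f0 y.1 := QuotientGroup.leftRel_apply.1 hqq
    have := D.ex_comm h0 h hcomp y.1 _ hq
    rw [map_mul, map_inv] at this
    exact conj_eq_of_comm this)

theorem exB_mk (i : D.ι) (q : Q) : D.exB h0 h hcomp ⟨i, (q : Q ⧸ D.img f0 i)⟩ =
    D.actQ f0 f q * D.ex h0 h i * (D.actQ f0 f q)⁻¹ := rfl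

theorem exB_smul (q : Q) (y : D.Base f0) : D.exB h0 h hcomp (q • y) =
    D.actQ f0 f q * D.exB h0 h hcomp y * (D.actQ f0 f q)⁻¹ := by
  obtain ⟨i, y⟩ := y
  induction y using QuotientGroup.induction_on with
  | H p =>
    change D.exB h0 h hcomp ⟨i, ((q * p : Q) : Q ⧸ D.img f0 i)⟩ = _
    rw [exB_mk, exB_mk, map_mul]
    group

/-- The action of the big group. -/
noncomputable def big : FreeGroup (D.Base f0) ⋊[frAct Q (D.Base f0)] Q →* Equiv.Perm (D.Sp f0 f) :=
  SemidirectProduct.lift (FreeGroup.lift (D.exB h0 h hcomp)) (D.actQ f0 f) (by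
    intro q
    ext1 y
    change FreeGroup.lift (D.exB h0 h hcomp) (frAct Q (D.Base f0) q (FreeGroup.of y)) =
      D.actQ f0 f q * FreeGroup.lift (D.exB h0 h hcomp) (FreeGroup.of y) * (D.actQ f0 f q)⁻¹
    rw [frAct_of, FreeGroup.lift_apply_of, FreeGroup.lift_apply_of, exB_smul])

/-- The basis element of a leaf. -/
def bas (i : D.ι) : FreeGroup (D.Base f0) ⋊[frAct Q (D.Base f0)] Q :=
  SemidirectProduct.inl (FreeGroup.of ⟨i, ((1 : Q) : Q ⧸ D.img f0 i)⟩)

theorem big_bas (i : D.ι) : D.big h0 h hcomp (D.bas i) = D.ex h0 h i := by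
  rw [big, bas, SemidirectProduct.lift_inl, FreeGroup.lift_apply_of, exB_mk]
  simp

theorem big_inr (q : Q) : D.big h0 h hcomp (SemidirectProduct.inr q) = D.actQ f0 f q := by
  rw [big, SemidirectProduct.lift_inr]

theorem bas_comm (i : D.ι) (q : Q) (hq : q ∈ D.img f0 i) :
    (D.bas (f0 := f0) i)⁻¹ * SemidirectProduct.inr q * D.bas i = SemidirectProduct.inr q := by
  have h1 : (SemidirectProduct.inr q : FreeGroup (D.Base f0) ⋊[frAct Q (D.Base f0)] Q) *
      D.bas i * (SemidirectProduct.inr q)⁻¹ = D.bas i := by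
    have h2 : (q • (⟨i, ((1 : Q) : Q ⧸ D.img f0 i)⟩ : D.Base f0)) =
        ⟨i, ((1 : Q) : Q ⧸ D.img f0 i)⟩ := by
      have h3 : ((q * 1 : Q) : Q ⧸ D.img f0 i) = ((1 : Q) : Q ⧸ D.img f0 i) := by
        rw [QuotientGroup.eq]
        simpa using hq
      exact congrArg (Sigma.mk i) h3
    rw [bas, ← map_inv, ← SemidirectProduct.inl_aut, frAct_of, h2]
  rw [mul_assoc, inv_mul_eq_iff_eq_mul]
  rwa [mul_inv_eq_iff_eq_mul] at h1

/-- The embedding. -/
noncomputable def emb : D.Grp →* FreeGroup (D.Base f0) ⋊[frAct Q (D.Base f0)] Q :=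
  D.lift (SemidirectProduct.inr.comp f0)
    (fun i => (MulAut.conj (D.bas i)⁻¹).toMonoidHom.comp (SemidirectProduct.inr.comp (f i))) (by
      intro i l
      change SemidirectProduct.inr (f0 _) =
        (D.bas i)⁻¹ * SemidirectProduct.inr (f i (Subgroup.inclusion (D.le_leaf i) l)) *
          ((D.bas i)⁻¹)⁻¹
      rw [inv_inv, ← hcomp, bas_comm]
      exact ⟨l, rfl⟩)

theorem mem_of_gens (P : Subgroup D.Grp) (hc : ∀ x, D.c x ∈ P) (hj : ∀ i x, D.j i x ∈ P)
    (u : D.Grp) : u ∈ P := by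
  let r : D.Grp →* P := D.lift (D.c.codRestrict P hc) (fun i => (D.j i).codRestrict P (hj i))
    (fun i l => Subtype.ext (D.glue i l))
  have hr : P.subtype.comp r = MonoidHom.id _ := by
    refine D.hom_ext (fun x => ?_) (fun i x => ?_)
    · change ((r (D.c x) : P) : D.Grp) = D.c x
      rw [lift_c]
      rfl
    · change ((r (D.j i x) : P) : D.Grp) = D.j i x
      rw [lift_j]
      rfl
  have := DFunLike.congr_fun hr u
  rw [← show ((r u : P) : D.Grp) = u from this]
  exact (r u).2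

theorem emb_c (x : D.ctr) : D.emb hcomp (D.c x) = SemidirectProduct.inr (f0 x) := rfl

theorem emb_j (i : D.ι) (x : D.leaf i) : D.emb hcomp (D.j i x) =
    (D.bas i)⁻¹ * SemidirectProduct.inr (f i x) * D.bas i := by
  rw [emb, lift_j]
  change (D.bas i)⁻¹ * SemidirectProduct.inr (f i x) * ((D.bas i)⁻¹)⁻¹ = _
  rw [inv_inv]

theorem actQ_cp (x : D.ctr) (v : D.Grp) :
    D.actQ f0 f (f0 x) (D.cp f0 f v) = D.cp f0 f (D.c x * v) := by
  rw [cp, cp, actQ_inl, Bal.smul_mk, mul_one]
  have := Bal.mk_mul (a := f0) (b := D.c) 1 x v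
  rw [one_mul] at this
  rw [this]

theorem actQ_lp (i : D.ι) (x : D.leaf i) (v : D.Grp) :
    D.actQ f0 f (f i x) (D.lp f0 f i v) = D.lp f0 f i (D.j i x * v) := by
  rw [lp, lp, actQ_inr, Bal.smul_mk, mul_one]
  have := Bal.mk_mul (a := f i) (b := D.j i) 1 x v
  rw [one_mul] at this
  rw [this]

theorem big_emb (u v : D.Grp) :
    D.big h0 h hcomp (D.emb hcomp u) (D.cp f0 f v) = D.cp f0 f (u * v) := by
  let P : Subgroup D.Grp :=
    { carrier := {u | ∀ v, D.big h0 h hcomp (D.emb hcomp u) (D.cp f0 f v) = D.cp f0 f (u * v)}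
      one_mem' := fun v => by simp
      mul_mem' := fun {a b} ha hb v => by
        rw [map_mul, map_mul, Equiv.Perm.mul_apply, hb v, ha, mul_assoc]
      inv_mem' := fun {a} ha v => by
        have h1 := ha (a⁻¹ * v)
        rw [mul_inv_cancel_left] at h1
        rw [map_inv, map_inv, ← h1, Equiv.Perm.inv_def, Equiv.symm_apply_apply] }
  refine D.mem_of_gens P (fun x v => ?_) (fun i x v => ?_) u v
  · rw [emb_c, big_inr, actQ_cp]
  · rw [emb_j, map_mul, map_mul, map_inv, big_bas, big_inr, Equiv.Perm.mul_apply,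
      Equiv.Perm.mul_apply, ex_cp, actQ_lp, Equiv.Perm.inv_def, Equiv.symm_apply_eq, ex_cp]

include h0 h in
theorem emb_injective : Function.Injective (D.emb hcomp) := by
  refine (injective_iff_map_eq_one _).2 fun u hu => ?_
  have := D.big_emb h0 h hcomp u 1
  rw [hu, map_one, mul_one] at this
  exact (D.cp_inj h0 this).symm

end Star

/-- **The star lemma.** -/
theorem ExtClass.star_of_freeExt {C : ∀ (G : Type) [Group G], Prop} (hC : ExtClass C)
    (hFE : ∀ (Q Y : Type) [Group Q] [MulAction Q Y], C Q → C (FreeGroup Y ⋊[frAct Q Y] Q))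
    {T : Type} [Group T] (D : Star T) {Q : Type} [Group Q] (hQ : C Q)
    (f0 : D.ctr →* Q) (f : ∀ i, D.leaf i →* Q) (h0 : Function.Injective f0)
    (h : ∀ i, Function.Injective (f i))
    (hcomp : ∀ i (l : D.edge i), f0 (Subgroup.inclusion (D.le_ctr i) l) =
      f i (Subgroup.inclusion (D.le_leaf i) l)) :
    C D.Grp :=
  hC.toClosedClass.inj (D.emb hcomp) (D.emb_injective h0 h hcomp) (hFE Q (D.Base f0) hQ)

end Pool.Agent.Helper29.PA
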