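import Mathlib

/-!
# Displacement of torsion free normal subgroups
-/

set_option autoImplicit false

namespace Pool.Agent.Helper13.PA

section

variable {Γ : Type} [Group Γ]

omit [Group Γ] in
theorem exists_pos_of_finite (T : Set Γ) (hT : T.Finite) (m : Γ → ℝ) (hm : ∀ g ∈ T, 0 < m g) :
    ∃ ε : ℝ, 0 < ε ∧ ε ≤ 1 ∧ ∀ g ∈ T, ε ≤ m g := by
  induction T, hT using Set.Finite.induction_on with
  | empty => exact ⟨1, one_pos, le_rfl, fun g hg => absurd hg (Set.notMem_empty g)⟩
  | @insert a T _ _ ih =>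
    obtain ⟨ε, h1, h2, h3⟩ := ih fun g hg => hm g (Set.mem_insert_of_mem _ hg)
    refine ⟨min ε (m a), lt_min h1 (hm a (Set.mem_insert _ _)), (min_le_left _ _).trans h2, ?_⟩
    rintro g (rfl | hg)
    · exact min_le_right _ _
    · exact (min_le_left _ _).trans (h3 g hg)

/-- A torsion free normal subgroup of a group which acts properly and cocompactly moves all
points by at least `ε`. -/
theorem exists_displacement {Y : Type*} [PseudoMetricSpace Y] [T2Space Y] [ProperSpace Y]
    [MulAction Γ Y] [IsIsometricSMul Γ Y] [ProperlyDiscontinuousSMul Γ Y] (B : Set Y)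
    (hB : IsCompact B) (hB' : ∀ y : Y, ∃ g : Γ, g • y ∈ B) (K : Subgroup Γ) (hn : K.Normal)
    (htf : ∀ g ∈ K, g ≠ 1 → ∀ n : ℕ, 0 < n → g ^ n ≠ 1) :
    ∃ ε : ℝ, 0 < ε ∧ ∀ g ∈ K, g ≠ 1 → ∀ y : Y, ε ≤ dist y (g • y) := by
  have hB1 : IsCompact (Metric.cthickening 1 B) := hB.cthickening
  set T : Set Γ := {g | (((g • ·) '' (Metric.cthickening 1 B)) ∩
    (Metric.cthickening 1 B)).Nonempty} with hTdef
  have hT : T.Finite := ProperlyDiscontinuousSMul.finite_disjoint_inter_image hB1 hB1
  -- no fixed points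
  have hfix : ∀ g ∈ K, g ≠ 1 → ∀ y : Y, g • y ≠ y := by
    intro g hg hg1 y hy
    have hfin : {γ : Γ | (((γ • ·) '' ({y} : Set Y)) ∩ {y}).Nonempty}.Finite :=
      ProperlyDiscontinuousSMul.finite_disjoint_inter_image isCompact_singleton
        isCompact_singleton
    have hinj : Function.Injective fun n : ℕ => g ^ n := by
      intro a b hab
      by_contra hne
      rcases lt_or_gt_of_ne hne with h | h
      · have := pow_sub_mul_pow g h.le
        have hab' : g ^ a = g ^ b := hab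
        rw [← hab'] at this
        exact htf g hg hg1 (b - a) (Nat.sub_pos_of_lt h) (mul_eq_right.1 this)
      · have := pow_sub_mul_pow g h.le
        have hab' : g ^ a = g ^ b := hab
        rw [← hab'] at this
        exact htf g hg hg1 (a - b) (Nat.sub_pos_of_lt h) (mul_eq_right.1 this)
    refine Set.infinite_of_injective_forall_mem hinj (fun n => ?_) hfin
    change (((g ^ n • ·) '' ({y} : Set Y)) ∩ {y}).Nonempty
    have h1 : ∀ n : ℕ, g ^ n • y = y := by
      intro n
      induction n with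
      | zero => simp
      | succ n ih => rw [pow_succ, mul_smul, hy, ih]
    exact ⟨y, ⟨y, rfl, h1 n⟩, rfl⟩
  -- the minimal displacement on `B`
  have hmin : ∀ g ∈ T ∩ {g | g ∈ K ∧ g ≠ 1}, ∃ m : ℝ, 0 < m ∧ ∀ y ∈ B, m ≤ dist y (g • y) := by
    rintro g ⟨-, hg, hg1⟩
    rcases B.eq_empty_or_nonempty with h0 | h0
    · exact ⟨1, one_pos, fun y hy => by rw [h0] at hy; exact absurd hy (Set.notMem_empty y)⟩
    · have hc : ContinuousOn (fun y : Y => dist y (g • y)) B :=
        (continuous_id.dist (isometry_smul Y g).continuous).continuousOn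
      obtain ⟨y0, -, h2⟩ := hB.exists_isMinOn h0 hc
      refine ⟨dist y0 (g • y0), ?_, fun y hy => h2 hy⟩
      refine lt_of_le_of_ne dist_nonneg fun h => ?_
      have h3 : Inseparable y0 (g • y0) := Metric.inseparable_iff.2 h.symm
      exact hfix g hg hg1 y0 h3.eq.symm
  choose! m hm1 hm2 using hmin
  obtain ⟨ε, h1, h2, h3⟩ := exists_pos_of_finite (T ∩ {g | g ∈ K ∧ g ≠ 1})
    (hT.subset Set.inter_subset_left) m hm1
  refine ⟨ε, h1, fun g hg hg1 y => ?_⟩
  by_contra hlt
  rw [not_le] at hlt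
  obtain ⟨h, hh⟩ := hB' y
  have hg' : h * g * h⁻¹ ∈ K := hn.conj_mem g hg h
  have hne : h * g * h⁻¹ ≠ 1 := by
    intro h0
    apply hg1
    have : g = h⁻¹ * (h * g * h⁻¹) * h := by group
    rw [this, h0]
    group
  have hact : (h * g * h⁻¹) • (h • y) = h • g • y := by
    rw [mul_smul, mul_smul, inv_smul_smul]
  have hd : dist (h • y) ((h * g * h⁻¹) • (h • y)) = dist y (g • y) := by
    rw [hact, dist_smul]
  have hmem : h • y ∈ Metric.cthickening 1 B := Metric.self_subset_cthickening B hh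
  have hmem' : (h * g * h⁻¹) • (h • y) ∈ Metric.cthickening 1 B := by
    refine Metric.mem_cthickening_of_dist_le _ (h • y) 1 B hh ?_
    rw [dist_comm, hd]
    exact hlt.le.trans h2
  have hT' : h * g * h⁻¹ ∈ T := by
    exact ⟨_, ⟨_, hmem, rfl⟩, hmem'⟩
  have h4 := hm2 _ ⟨hT', hg', hne⟩ (h • y) hh
  have h5 := h3 _ ⟨hT', hg', hne⟩
  rw [hd] at h4
  linarith

end

end Pool.Agent.Helper13.PA
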