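import Pool.Agent.Helper29.BA.Wr

/-!
# Self-similar groups of contracting sequences of virtual homomorphisms

`φ n : H n → Γ (n + 1)` is a homomorphism from a subgroup of finite index of `Γ n`. The group
`Γ 0` acts on the rooted tree whose vertices of level `n` are the sequences of cosets; the kernel
of this action is the group `K 0` of the largest sequence of normal subgroups `K n` of `Γ n` which
are contained in `H n` and such that `φ n` maps `K n` to `K (n + 1)`.
-/

set_option autoImplicit false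

namespace Pool.Agent.Helper13.PA

open Pool.Agent.Helper29.BA

section

variable {Γ : ℕ → Type} [∀ n, Group (Γ n)] {H : ∀ n, Subgroup (Γ n)}
  (φ : ∀ n, H n →* Γ (n + 1))

/-- `K` is the largest sequence of normal subgroups `K n` of `Γ n` which are contained in `H n`
and such that `φ n` maps `K n` to `K (n + 1)`. -/
structure IsCore (K : ∀ n, Subgroup (Γ n)) : Prop where
  normal : ∀ n, (K n).Normal
  le : ∀ n, K n ≤ H n
  map : ∀ n (h : H n), (h : Γ n) ∈ K n → φ n h ∈ K (n + 1)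
  max : ∀ N : ∀ n, Subgroup (Γ n), (∀ n, (N n).Normal) → (∀ n, N n ≤ H n) →
    (∀ n (h : H n), (h : Γ n) ∈ N n → φ n h ∈ N (n + 1)) → ∀ n, N n ≤ K n

/-- The elements of `Γ m` which act trivially on the next `n` levels and have trivial sections
there. -/
def E : ℕ → ∀ m, Subgroup (Γ m)
  | 0, _ => ⊥
  | n + 1, m =>
    { carrier := {g | ∀ r : Γ m, ∃ h : H m, (h : Γ m) = r⁻¹ * g * r ∧ φ m h ∈ E n (m + 1)}
      one_mem' := fun r => ⟨1, by simp, by rw [map_one]; exact one_mem _⟩
      mul_mem' := fun {a b} ha hb r => by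
        obtain ⟨h, h1, h2⟩ := ha r
        obtain ⟨k, k1, k2⟩ := hb r
        exact ⟨h * k, by rw [Subgroup.coe_mul, h1, k1]; group, by
          rw [map_mul]; exact mul_mem h2 k2⟩
      inv_mem' := fun {a} ha r => by
        obtain ⟨h, h1, h2⟩ := ha r
        exact ⟨h⁻¹, by rw [Subgroup.coe_inv, h1]; group, by rw [map_inv]; exact inv_mem h2⟩ }

theorem mem_E_succ (n m : ℕ) (g : Γ m) : g ∈ E φ (n + 1) m ↔
    ∀ r : Γ m, ∃ h : H m, (h : Γ m) = r⁻¹ * g * r ∧ φ m h ∈ E φ n (m + 1) := Iff.rfl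

instance E_normal : ∀ n m, (E φ n m).Normal
  | 0, m => by
    change (⊥ : Subgroup (Γ m)).Normal
    infer_instance
  | n + 1, m => ⟨fun g hg x r => by
      obtain ⟨h, h1, h2⟩ := hg (x⁻¹ * r)
      exact ⟨h, by rw [h1]; group, h2⟩⟩

theorem E_le_succ : ∀ n m, E φ n m ≤ E φ (n + 1) m
  | 0, m => by
    intro g hg
    have : g = 1 := hg
    subst this
    exact one_mem _
  | n + 1, m => fun g hg r => by
      obtain ⟨h, h1, h2⟩ := hg r
      exact ⟨h, h1, E_le_succ n (m + 1) h2⟩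

theorem E_le_H : ∀ n m, E φ n m ≤ H m
  | 0, _ => bot_le
  | n + 1, m => fun g hg => by
      obtain ⟨h, h1, _⟩ := hg 1
      have : (h : Γ m) = g := by rw [h1]; group
      rw [← this]
      exact h.2

theorem map_E (n m : ℕ) (h : H m) (hh : (h : Γ m) ∈ E φ n m) : φ m h ∈ E φ n (m + 1) := by
  have h1 := E_le_succ φ n m hh 1
  obtain ⟨k, k1, k2⟩ := h1
  have : k = h := Subtype.ext (by rw [k1]; group)
  rwa [← this]

theorem E_le_core {K : ∀ n, Subgroup (Γ n)} (hK : IsCore φ K) (n m : ℕ) : E φ n m ≤ K m :=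
  hK.max (fun m => E φ n m) (fun m => E_normal φ n m) (fun m => E_le_H φ n m)
    (fun m => map_E φ n m) m

end

section

variable {G G' : Type} [Group G] [Group G'] {H : Subgroup G} (φ : H →* G')

/-- The representative of a coset. -/
noncomputable def rep (x : G ⧸ H) : G := Quotient.out x

theorem rep_mk (x : G ⧸ H) : ((rep x : G) : G ⧸ H) = x := Quotient.out_eq x

theorem rep_mem (g : G) (x : G ⧸ H) : (rep (g • x))⁻¹ * g * rep x ∈ H := by
  rw [mul_assoc, ← QuotientGroup.eq]
  rw [rep_mk]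
  conv_lhs => rw [← rep_mk x]
  rfl

/-- The section before `φ` is applied. -/
noncomputable def secH (g : G) (x : G ⧸ H) : H := ⟨(rep (g • x))⁻¹ * g * rep x, rep_mem g x⟩

/-- The wreath recursion. -/
noncomputable def recur : G →* Wr (G ⧸ H) G' where
  toFun g := ⟨MulAction.toPerm g, fun x => φ (secH g x)⟩
  map_one' := by
    ext x
    · simp
    · have : secH (1 : G) x = 1 := Subtype.ext (by simp [secH])
      simp [this]
  map_mul' a b := by
    ext x
    · simp [mul_smul]
    · have : secH (a * b) x = secH a (b • x) * secH b x := Subtype.ext (by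
        simp only [secH, Subgroup.coe_mul, mul_smul]
        group)
      simp [this]

/-- The kernel of the wreath recursion modulo a normal subgroup. -/
theorem ker_recur (N : Subgroup G') [N.Normal] (g : G) :
    (Wr.map (QuotientGroup.mk' N)).comp (recur φ) g = 1 ↔
      ∀ r : G, ∃ h : H, (h : G) = r⁻¹ * g * r ∧ φ h ∈ N := by
  constructor
  · intro hg r
    have hp : ∀ x : G ⧸ H, g • x = x := fun x => congrArg (fun w => w.p x) hg
    have hs : ∀ x : G ⧸ H, φ (secH g x) ∈ N := fun x => by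
      have := congrArg (fun w => w.s x) hg
      change (QuotientGroup.mk (φ (secH g x)) : G' ⧸ N) = 1 at this
      exact (QuotientGroup.eq_one_iff _).1 this
    set x : G ⧸ H := (r : G ⧸ H) with hx
    have hh : (rep x)⁻¹ * r ∈ H := by
      rw [← QuotientGroup.eq, rep_mk]
    let h : H := ⟨(rep x)⁻¹ * r, hh⟩
    have e1 : ((secH g x : H) : G) = (rep x)⁻¹ * g * rep x := by
      change (rep (g • x))⁻¹ * g * rep x = _
      rw [hp x]
    refine ⟨h⁻¹ * secH g x * h, ?_, ?_⟩
    · rw [Subgroup.coe_mul, Subgroup.coe_mul, Subgroup.coe_inv, e1]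
      change ((rep x)⁻¹ * r)⁻¹ * ((rep x)⁻¹ * g * rep x) * ((rep x)⁻¹ * r) = _
      group
    · rw [map_mul, map_mul, map_inv]
      have := Subgroup.Normal.conj_mem ‹N.Normal› _ (hs x) (φ h)⁻¹
      simpa using this
  · intro hg
    have hp : ∀ x : G ⧸ H, g • x = x := fun x => by
      obtain ⟨h, h1, _⟩ := hg (rep x)
      have h2 : (rep x)⁻¹ * (g * rep x) ∈ H := by
        rw [← mul_assoc, ← h1]
        exact h.2
      rw [← QuotientGroup.eq, rep_mk] at h2
      have h3 : g • x = ((g * rep x : G) : G ⧸ H) := by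
        conv_lhs => rw [← rep_mk x]
        rfl
      rw [h3, ← h2]
    ext x
    · exact hp x
    · change (QuotientGroup.mk (φ (secH g x)) : G' ⧸ N) = 1
      rw [QuotientGroup.eq_one_iff]
      obtain ⟨h, h1, h2⟩ := hg (rep x)
      have : secH g x = h := Subtype.ext (by
        rw [h1]
        change (rep (g • x))⁻¹ * g * rep x = _
        rw [hp x])
      rw [this]
      exact h2

theorem mem_wr {C : ∀ (G : Type) [Group G], Prop} (hC : ClosedClass C) [H.FiniteIndex]
    (N : Subgroup G') [N.Normal] (M : Subgroup G) [M.Normal]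
    (hM : ∀ g : G, g ∈ M ↔ ∀ r : G, ∃ h : H, (h : G) = r⁻¹ * g * r ∧ φ h ∈ N)
    (h : C (G' ⧸ N)) : C (G ⧸ M) := by
  have : Finite (G ⧸ H) := Subgroup.finite_quotient_of_finiteIndex
  have hle : M ≤ ((Wr.map (QuotientGroup.mk' N)).comp (recur φ)).ker := fun g hg =>
    MonoidHom.mem_ker.2 ((ker_recur φ N g).2 ((hM g).1 hg))
  refine hC.inj (QuotientGroup.lift M _ hle) ?_ (hC.wr (Y := G ⧸ H) h)
  rw [injective_iff_map_eq_one]
  intro x
  induction x using QuotientGroup.induction_on with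
  | H g =>
    intro hg
    rw [QuotientGroup.lift_mk] at hg
    rw [QuotientGroup.eq_one_iff]
    exact (hM g).2 ((ker_recur φ N g).1 hg)

end

/-- The errors of the first `n` levels. -/
def err (l c : ℝ) : ℕ → ℝ
  | 0 => 0
  | n + 1 => err l c n + l ^ n * c

theorem err_le {l c : ℝ} (hl : 0 ≤ l) (hl1 : l < 1) (hc : 0 ≤ c) (n : ℕ) :
    err l c n ≤ c / (1 - l) := by
  have h1 : 0 < 1 - l := by linarith
  have h2 : ∀ n, err l c n = (1 - l ^ n) * (c / (1 - l)) := by
    intro n
    induction n with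
    | zero => simp [err]
    | succ n ih =>
      rw [err, ih]
      field_simp
      ring
  rw [h2]
  have h3 : 0 ≤ c / (1 - l) := div_nonneg hc h1.le
  have h4 : 0 ≤ l ^ n := pow_nonneg hl n
  nlinarith

section

variable {Γ : ℕ → Type} [∀ n, Group (Γ n)] {H : ∀ n, Subgroup (Γ n)}
  (φ : ∀ n, H n →* Γ (n + 1)) {C : ∀ (G : Type) [Group G], Prop} (hC : ClosedClass C)

theorem mem_quot (hC : ClosedClass C) [∀ n, (H n).FiniteIndex] (h : ∀ n, C (Γ n)) (n : ℕ) :
    ∀ m, C (Γ m ⧸ E φ n m) := by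
  induction n with
  | zero =>
    intro m
    exact hC.iso _ _ (QuotientGroup.quotientBot (G := Γ m)).symm (h m)
  | succ n ih =>
    intro m
    exact mem_wr (φ m) hC (E φ n (m + 1)) (E φ (n + 1) m) (mem_E_succ φ n m) (ih (m + 1))

/-- If every element of the kernel of the action has trivial sections at some level, then the
quotient by the kernel is in the class. -/
theorem mem_of_sections (hC : ClosedClass C) [∀ n, (H n).FiniteIndex] (h : ∀ n, C (Γ n))
    (K : Subgroup (Γ 0)) [K.Normal] (hK : ∀ n, E φ n 0 ≤ K) (hE : ∀ g ∈ K, ∃ n, g ∈ E φ n 0) :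
    C (Γ 0 ⧸ K) := by
  refine hC.ofKer (QuotientGroup.mk' K) (QuotientGroup.mk'_surjective K)
    (fun n => QuotientGroup.mk' (E φ n 0)) (fun n => ?_) (fun n => ?_) (fun w hw => ?_)
    (fun n => mem_quot φ hC h n 0)
  · rw [QuotientGroup.ker_mk', QuotientGroup.ker_mk']
    exact E_le_succ φ n 0
  · rw [QuotientGroup.ker_mk', QuotientGroup.ker_mk']
    exact hK n
  · have hw' : w ∈ K := (QuotientGroup.eq_one_iff w).1 hw
    obtain ⟨n, hn⟩ := hE w hw'
    exact ⟨n, (QuotientGroup.eq_one_iff w).2 hn⟩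

/-- Sections of small displacement. -/
theorem mem_E_of_dist {Y : ℕ → Type} [∀ n, PseudoMetricSpace (Y n)]
    [∀ n, MulAction (Γ n) (Y n)] [∀ n, IsIsometricSMul (Γ n) (Y n)]
    {l c : ℝ} (hl : 0 ≤ l) (F : ∀ n, Y n → Y (n + 1))
    (hF : ∀ n y z, dist (F n y) (F n z) ≤ l * dist y z + c)
    (hφ : ∀ n (h : H n) (y : Y n), F n ((h : Γ n) • y) = φ n h • F n y)
    {K : ∀ n, Subgroup (Γ n)} (hn : ∀ n, (K n).Normal) (hle : ∀ n, K n ≤ H n)
    (hmap : ∀ n (h : H n), (h : Γ n) ∈ K n → φ n h ∈ K (n + 1))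
    {R : ℝ} (hfree : ∀ n, ∀ g ∈ K n, g ≠ 1 → ∀ y : Y n, R ≤ dist y (g • y)) :
    ∀ (n m : ℕ) (g : Γ m), g ∈ K m → ∀ y : Y m, l ^ n * dist y (g • y) + err l c n < R →
      g ∈ E φ n m
  | 0, m => fun g hg y hy => by
    by_contra hne
    have := hfree m g hg (fun h1 => hne (by rw [h1]; exact one_mem _)) y
    rw [pow_zero, one_mul, err, add_zero] at hy
    exact absurd hy (not_lt.2 this)
  | n + 1, m => fun g hg y hy r => by
    have hr : r⁻¹ * g * r ∈ K m := by
      have := (hn m).conj_mem g hg r⁻¹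
      simpa using this
    refine ⟨⟨r⁻¹ * g * r, hle m hr⟩, rfl, ?_⟩
    refine mem_E_of_dist hl F hF hφ hn hle hmap hfree n (m + 1) _ (hmap m _ hr)
      (F m (r⁻¹ • y)) ?_
    rw [← hφ]
    refine lt_of_le_of_lt ?_ hy
    have h1 : dist (F m (r⁻¹ • y)) (F m ((r⁻¹ * g * r) • r⁻¹ • y)) ≤
        l * dist y (g • y) + c := by
      refine (hF m _ _).trans (le_of_eq ?_)
      rw [mul_smul, smul_inv_smul, mul_smul, dist_smul]
    calc l ^ n * dist (F m (r⁻¹ • y)) (F m ((r⁻¹ * g * r) • r⁻¹ • y)) + err l c n ≤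
          l ^ n * (l * dist y (g • y) + c) + err l c n := by gcongr
      _ = l ^ (n + 1) * dist y (g • y) + err l c (n + 1) := by rw [err]; ring

/-- **Self-similar groups of (coarsely) contracting virtual homomorphisms.** -/
theorem mem_of_contracting (hC : ClosedClass C) [∀ n, (H n).FiniteIndex] (h : ∀ n, C (Γ n))
    (K : ∀ n, Subgroup (Γ n)) [(K 0).Normal] (hK : IsCore φ K)
    {Y : ℕ → Type} [∀ n, PseudoMetricSpace (Y n)] [Nonempty (Y 0)]
    [∀ n, MulAction (Γ n) (Y n)] [∀ n, IsIsometricSMul (Γ n) (Y n)]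
    {l c R : ℝ} (hl : 0 ≤ l) (hl1 : l < 1) (hc : 0 ≤ c) (hR : c / (1 - l) < R)
    (F : ∀ n, Y n → Y (n + 1))
    (hφ : ∀ n (h : H n) (y : Y n), F n ((h : Γ n) • y) = φ n h • F n y)
    (hF : ∀ n y z, dist (F n y) (F n z) ≤ l * dist y z + c)
    (hfree : ∀ n, ∀ g ∈ K n, g ≠ 1 → ∀ y : Y n, R ≤ dist y (g • y)) :
    C (Γ 0 ⧸ K 0) := by
  refine mem_of_sections φ hC h (K 0) (fun n => E_le_core φ hK n 0) fun g hg => ?_
  obtain ⟨y⟩ := ‹Nonempty (Y 0)›
  have ht : Filter.Tendsto (fun n : ℕ => l ^ n * dist y (g • y)) Filter.atTop (nhds 0) := by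
    have := (tendsto_pow_atTop_nhds_zero_of_lt_one hl hl1).mul_const (dist y (g • y))
    simpa using this
  have hpos : 0 < R - c / (1 - l) := by linarith
  obtain ⟨n, hn⟩ := (ht.eventually (gt_mem_nhds hpos)).exists
  have herr := err_le hl hl1 hc n
  exact ⟨n, mem_E_of_dist φ hl F hF hφ hK.normal hK.le hK.map hfree n 0 g hg y (by linarith)⟩

end

end Pool.Agent.Helper13.PA
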