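import Pool.Agent.Helper29.BA.Gen

/-!
# Contracting groups and their finitely presented covers
-/

set_option autoImplicit false

namespace Pool.Agent.Helper13.PA

open Pool.Agent.Helper29.BA TreeAut

/-- The relations of length at most `3` between the elements of a subset `S` of a group. -/
def shortRels {G : Type} [Group G] (S : Set G) : Set (FreeGroup S) :=
  {r | ∃ l : List S, l.length ≤ 3 ∧ (l.map Subtype.val).prod = 1 ∧
    r = (l.map FreeGroup.of).prod}

variable {X : Type}

/-- `h` is the section of the permutation `g` of the words over `X` at the word `v`. -/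
def IsSection (g : Equiv.Perm (List X)) (v : List X) (h : Equiv.Perm (List X)) : Prop :=
  ∀ w, g (v ++ w) = g v ++ h w

/-- `S` is a finite set of automorphisms of the tree of words, closed under inverses and
sections, and for some `n` the sections of level `n` of the products of two elements of `S` are
in `S`. -/
structure IsNucleus (S : Set (Equiv.Perm (List X))) : Prop where
  finite : S.Finite
  aut : ∀ g ∈ S, IsTreeAut g
  one : 1 ∈ S
  inv : ∀ g ∈ S, g⁻¹ ∈ S
  sec : ∀ g ∈ S, ∀ v, ∃ h ∈ S, IsSection g v h
  mul : ∃ n, ∀ g ∈ S, ∀ h ∈ S, ∀ v, v.length = n → ∃ k ∈ S, IsSection (g * h) v k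

theorem isSection_iff (g : TreeAut X) (v : List X) (h : Equiv.Perm (List X)) :
    IsSection g.1 v h ↔ h = (secw g v).1 := by
  constructor
  · intro hh
    ext1 w
    have h1 := hh w
    rw [apply_append] at h1
    exact (List.append_cancel_left h1).symm
  · rintro rfl w
    exact apply_append g v w

namespace IsNucleus

variable {S : Set (Equiv.Perm (List X))} (hS : IsNucleus S)

/-- An element of the nucleus as an automorphism of the tree. -/
def tr (g : S) : TreeAut X := ⟨g.1, hS.aut g.1 g.2⟩

theorem secw_mem (g : S) (v : List X) : (secw (hS.tr g) v).1 ∈ S := by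
  obtain ⟨h, h1, h2⟩ := hS.sec g.1 g.2 v
  have := (isSection_iff (hS.tr g) v h).1 h2
  rwa [← this]

/-- The section in the nucleus. -/
def sc (g : S) (x : X) : S := ⟨(TreeAut.sec (hS.tr g) x).1, hS.secw_mem g [x]⟩

theorem tr_sc (g : S) (x : X) : hS.tr (hS.sc g x) = TreeAut.sec (hS.tr g) x := rfl

/-- The section at a word in the nucleus. -/
def scw (g : S) (v : List X) : S := ⟨(secw (hS.tr g) v).1, hS.secw_mem g v⟩

theorem tr_scw (g : S) (v : List X) : hS.tr (hS.scw g v) = secw (hS.tr g) v := rfl

/-- The cover. -/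
abbrev Cov (S : Set (Equiv.Perm (List X))) : Type := PresentedGroup (shortRels S)

/-- Letters of the cover. -/
def gen (g : S) : Cov S := PresentedGroup.of g

theorem rel_list (l : List S) (h3 : l.length ≤ 3) (h1 : (l.map Subtype.val).prod = 1) :
    (l.map (gen (S := S))).prod = 1 := by
  have h : (PresentedGroup.mk (shortRels S)) (l.map FreeGroup.of).prod = 1 :=
    PresentedGroup.one_of_mem ⟨l, h3, h1, rfl⟩
  rw [map_list_prod, List.map_map] at h
  exact h

/-- The projection to the automorphisms of the tree. -/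
def pr : Cov S →* TreeAut X :=
  PresentedGroup.toGroup (f := hS.tr) (by
    rintro r ⟨l, -, h1, rfl⟩
    rw [map_list_prod, List.map_map]
    have h2 : ((FreeGroup.lift hS.tr : FreeGroup S → TreeAut X) ∘ FreeGroup.of) = hS.tr := by
      funext g
      simp
    rw [h2]
    apply Subtype.ext
    have h3 : (((l.map hS.tr).prod : TreeAut X) : Equiv.Perm (List X)) =
        ((l.map hS.tr).map (TreeAut X).subtype).prod := map_list_prod (TreeAut X).subtype _
    rw [h3, List.map_map]
    exact h1)

@[simp] theorem pr_gen (g : S) : hS.pr (gen g) = hS.tr g := PresentedGroup.toGroup.of _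

/-- The sections of a list. -/
def secL : List S → X → List S
  | [], _ => []
  | g :: l, x => hS.sc g (rt ((l.map hS.tr).prod) x) :: secL l x

theorem length_secL (l : List S) (x : X) : (hS.secL l x).length = l.length := by
  induction l with
  | nil => rfl
  | cons g l ih => rw [secL, List.length_cons, List.length_cons, ih]

theorem tr_secL (l : List S) (x : X) :
    ((hS.secL l x).map hS.tr).prod = TreeAut.sec ((l.map hS.tr).prod) x := by
  induction l with
  | nil => exact (sec_one x).symm
  | cons g l ih =>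
    rw [secL, List.map_cons, List.prod_cons, ih, tr_sc, List.map_cons, List.prod_cons, sec_mul]

/-- The wreath recursion of a letter. -/
def phS (g : S) : Wr X (Cov S) := ⟨root (hS.tr g), fun x => gen (hS.sc g x)⟩

theorem phS_prod (l : List S) : (l.map hS.phS).prod =
    ⟨root ((l.map hS.tr).prod), fun x => ((hS.secL l x).map gen).prod⟩ := by
  induction l with
  | nil =>
    refine Wr.ext ?_ (funext fun x => ?_)
    · rfl
    · rfl
  | cons g l ih =>
    rw [List.map_cons, List.prod_cons, ih]
    refine Wr.ext (Equiv.ext fun x => ?_) (funext fun x => ?_)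
    · change rt (hS.tr g) (rt ((l.map hS.tr).prod) x) = rt (((g :: l).map hS.tr).prod) x
      rw [List.map_cons, List.prod_cons, rt_mul]
    · change gen (hS.sc g (rt ((l.map hS.tr).prod) x)) * ((hS.secL l x).map gen).prod =
        ((hS.secL (g :: l) x).map gen).prod
      rw [secL, List.map_cons, List.prod_cons]

theorem tr_prod (l : List S) (h1 : (l.map Subtype.val).prod = 1) : (l.map hS.tr).prod = 1 := by
  apply Subtype.ext
  have h3 : (((l.map hS.tr).prod : TreeAut X) : Equiv.Perm (List X)) =
      ((l.map hS.tr).map (TreeAut X).subtype).prod := map_list_prod (TreeAut X).subtype _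
  rw [h3, List.map_map]
  exact h1

theorem val_prod (l : List S) (h1 : (l.map hS.tr).prod = 1) : (l.map Subtype.val).prod = 1 := by
  have h3 : (((l.map hS.tr).prod : TreeAut X) : Equiv.Perm (List X)) =
      ((l.map hS.tr).map (TreeAut X).subtype).prod := map_list_prod (TreeAut X).subtype _
  rw [h1, List.map_map] at h3
  exact h3.symm

/-- The wreath recursion. -/
def ph : Cov S →* Wr X (Cov S) :=
  PresentedGroup.toGroup (f := hS.phS) (by
    rintro r ⟨l, h3, h1, rfl⟩
    rw [map_list_prod, List.map_map]
    have h2 : ((FreeGroup.lift hS.phS : FreeGroup S → Wr X (Cov S)) ∘ FreeGroup.of) =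
        hS.phS := by
      funext g
      simp
    rw [h2, phS_prod, hS.tr_prod l h1]
    refine Wr.ext ?_ (funext fun x => ?_)
    · rfl
    · refine rel_list _ ?_ ?_
      · rw [length_secL]
        exact h3
      · refine hS.val_prod _ ?_
        rw [tr_secL, hS.tr_prod l h1, sec_one])

@[simp] theorem ph_gen (g : S) : hS.ph (gen g) = hS.phS g := PresentedGroup.toGroup.of _

theorem comp : (Wr.map hS.pr).comp hS.ph = (TreeAut.wr X).comp hS.pr := by
  refine PresentedGroup.ext fun g => ?_
  change Wr.map hS.pr (hS.ph (gen g)) = TreeAut.wr X (hS.pr (gen g))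
  rw [ph_gen, pr_gen]
  refine Wr.ext ?_ (funext fun x => ?_)
  · rfl
  · change hS.pr (gen (hS.sc g x)) = TreeAut.sec (hS.tr g) x
    rw [pr_gen, tr_sc]

theorem gS_gen (g : S) (x : X) : gS hS.ph (gen g) x = gen (hS.sc g x) := by
  rw [gS, ph_gen]
  rfl

theorem gSw_gen (g : S) (v : List X) : gSw hS.ph (gen g) v = gen (hS.scw g v) := by
  induction v generalizing g with
  | nil => rfl
  | cons x v ih =>
    rw [gSw_cons, gS_gen, ih]
    rfl

theorem gen_one (h : (1 : Equiv.Perm (List X)) ∈ S) : gen (S := S) ⟨1, h⟩ = 1 := by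
  have := rel_list (S := S) [⟨1, h⟩] (by simp) (by simp)
  simpa using this

theorem gen_inv (g : S) : (gen g)⁻¹ = gen ⟨g.1⁻¹, hS.inv g.1 g.2⟩ := by
  have := rel_list (S := S) [g, ⟨g.1⁻¹, hS.inv g.1 g.2⟩] (by simp) (by simp)
  rw [List.map_cons, List.map_cons, List.map_nil, List.prod_cons, List.prod_cons, List.prod_nil,
    mul_one] at this
  exact inv_eq_of_mul_eq_one_right this

include hS in
theorem gen_mul (g h k : S) (hk : k.1 = g.1 * h.1) : gen g * gen h = gen k := by
  have := rel_list (S := S) [g, h, ⟨k.1⁻¹, hS.inv k.1 k.2⟩] (by simp) (by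
    rw [List.map_cons, List.map_cons, List.map_cons, List.map_nil, List.prod_cons,
      List.prod_cons, List.prod_cons, List.prod_nil, mul_one, ← mul_assoc, ← hk]
    exact mul_inv_cancel _)
  rw [List.map_cons, List.map_cons, List.map_cons, List.map_nil, List.prod_cons, List.prod_cons,
    List.prod_cons, List.prod_nil, mul_one, ← mul_assoc, ← hS.gen_inv, mul_inv_eq_one] at this
  exact this

/-- Deep sections are in the nucleus. -/
theorem deep (w : Cov S) : ∃ m, ∀ v : List X, m ≤ v.length → ∃ g : S, gSw hS.ph w v = gen g := by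
  obtain ⟨n, hn⟩ := hS.mul
  have hmul : ∀ w w' : Cov S,
      (∃ m, ∀ v : List X, m ≤ v.length → ∃ g : S, gSw hS.ph w v = gen g) →
      (∃ m, ∀ v : List X, m ≤ v.length → ∃ g : S, gSw hS.ph w' v = gen g) →
      ∃ m, ∀ v : List X, m ≤ v.length → ∃ g : S, gSw hS.ph (w * w') v = gen g := by
    rintro w w' ⟨m, hm⟩ ⟨m', hm'⟩
    refine ⟨max m m' + n, fun v hv => ?_⟩
    set v1 := v.take (max m m') with hv1
    set v2 := v.drop (max m m') with hv2
    have hl1 : v1.length = max m m' := by
      rw [hv1, List.length_take]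
      omega
    have hl2 : n ≤ v2.length := by
      rw [hv2, List.length_drop]
      omega
    have hv12 : v = v1 ++ v2 := (List.take_append_drop _ v).symm
    obtain ⟨g, hg⟩ := hm ((hS.pr w').1 v1) (by rw [(hS.pr w').2.1, hl1]; exact le_max_left _ _)
    obtain ⟨h, hh⟩ := hm' v1 (by rw [hl1]; exact le_max_right _ _)
    have e1 : gSw hS.ph (w * w') v1 = gen g * gen h := by
      rw [gSw_mul hS.ph hS.pr hS.comp, hg, hh]
    set u1 := v2.take n with hu1
    set u2 := v2.drop n with hu2
    have hlu : u1.length = n := by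
      rw [hu1, List.length_take]
      omega
    have hu12 : v2 = u1 ++ u2 := (List.take_append_drop _ v2).symm
    obtain ⟨k, hk, hk'⟩ := hn g.1 g.2 h.1 h.2 u1 hlu
    have hk2 : k = (secw (hS.tr g * hS.tr h) u1).1 :=
      (isSection_iff (hS.tr g * hS.tr h) u1 k).1 hk'
    have e2 : gSw hS.ph (gen g * gen h) u1 = gen ⟨k, hk⟩ := by
      rw [gSw_mul hS.ph hS.pr hS.comp, gSw_gen, gSw_gen]
      refine hS.gen_mul _ _ _ ?_
      change k = (secw (hS.tr g) ((hS.pr (gen h)).1 u1)).1 * (secw (hS.tr h) u1).1
      rw [hk2, secw_mul, pr_gen]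
      rfl
    refine ⟨hS.scw ⟨k, hk⟩ u2, ?_⟩
    rw [hv12, gSw_append, e1, hu12, gSw_append, e2, gSw_gen]
  have hgen : ∀ g : S, ∃ m, ∀ v : List X, m ≤ v.length → ∃ g' : S,
      gSw hS.ph (gen g) v = gen g' := fun g => ⟨0, fun v _ => ⟨hS.scw g v, hS.gSw_gen g v⟩⟩
  induction w using PresentedGroup.induction_on with
  | _ z =>
    induction z using FreeGroup.induction_on with
    | C1 =>
      refine ⟨0, fun v _ => ⟨⟨1, hS.one⟩, ?_⟩⟩
      rw [map_one, gSw_one, gen_one]
    | of g => exact hgen g
    | inv_of g _ =>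
      rw [map_inv]
      change ∃ m, ∀ v : List X, m ≤ v.length → ∃ g' : S, gSw hS.ph (gen g)⁻¹ v = gen g'
      rw [hS.gen_inv]
      exact hgen _
    | mul a b ha hb =>
      rw [map_mul]
      exact hmul _ _ ha hb

theorem kernel (w : Cov S) (hw : hS.pr w = 1) :
    ∃ n, ∀ v : List X, v.length = n → gSw hS.ph w v = 1 := by
  obtain ⟨m, hm⟩ := hS.deep w
  refine ⟨m, fun v hv => ?_⟩
  obtain ⟨g, hg⟩ := hm v hv.ge
  have h1 : hS.pr (gSw hS.ph w v) = 1 := by
    rw [pr_gSw hS.ph hS.pr hS.comp, hw, secw_one]
  rw [hg, pr_gen] at h1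
  have h3 : (hS.tr g).1 = (1 : TreeAut X).1 := congrArg Subtype.val h1
  have h2 : g = ⟨1, hS.one⟩ := Subtype.ext h3
  rw [hg, h2, gen_one]

theorem range_pr : (hS.pr.range).map (TreeAut X).subtype = Subgroup.closure S := by
  apply le_antisymm
  · rintro _ ⟨_, ⟨w, rfl⟩, rfl⟩
    induction w using PresentedGroup.induction_on with
    | _ z =>
      induction z using FreeGroup.induction_on with
      | C1 =>
        rw [map_one, map_one, map_one]
        exact one_mem _
      | of g => 
        change (hS.pr (gen g)).1 ∈ _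
        rw [pr_gen]
        exact Subgroup.subset_closure g.2
      | inv_of g ih =>
        rw [map_inv, map_inv, map_inv]
        exact inv_mem ih
      | mul a b ha hb =>
        rw [map_mul, map_mul, map_mul]
        exact mul_mem ha hb
  · rw [Subgroup.closure_le]
    intro g hg
    refine ⟨hS.tr ⟨g, hg⟩, ⟨gen ⟨g, hg⟩, hS.pr_gen _⟩, rfl⟩

end IsNucleus

/-- **Contracting groups.** If the finitely presented cover of a contracting group is in the
class, then so is the group. -/
theorem mem_of_nucleus {C : ∀ (G : Type) [Group G], Prop} (hC : ClosedClass C) [Finite X]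
    [Nonempty X] (S : Set (Equiv.Perm (List X))) (hS : IsNucleus S)
    (h : C (PresentedGroup (shortRels S))) : C (Subgroup.closure S) := by
  obtain ⟨o⟩ := ‹Nonempty X›
  have h1 : C hS.pr.range :=
    ClosedClass.range_of_cover hS.ph hS.pr hS.comp hC o h hS.kernel
  rw [← hS.range_pr]
  exact hC.iso _ _ (Subgroup.equivMapOfInjective _ _ Subtype.val_injective) h1

end Pool.Agent.Helper13.PA
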